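import Mathlib

namespace Pool.Agent.Results.MP_2a5e5c_nt.Full

open Finset

/-- `u ≡ v (mod p^m)` for rationals: `(u - v) / p^m` has denominator prime to `p` -/
def cong (p m : ℕ) (u v : ℚ) : Prop := ¬ p ∣ ((u - v) / (p : ℚ) ^ m).den

instance (p m : ℕ) (u v : ℚ) : Decidable (cong p m u v) := by unfold cong; infer_instance

/-- the generalized binomial coefficient `a (a-1) ⋯ (a-k+1) / k!` -/
def bin (a : ℚ) (k : ℕ) : ℚ := (∏ i ∈ range k, (a - i)) / k.factorial

theorem result : ¬ ∀ p : ℕ, p.Prime → 3 < p → ∀ x y : ℤ, 4 * (p : ℤ) = 41 * x ^ 2 + 3 * y ^ 2 →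
    cong p 2
      ((jacobiSym 41 p : ℚ) * (1025 / 1024) ^ ((1 - jacobiSym p 3) / 2) *
        ∑ k ∈ range p, bin (-2 / 3) k * bin (-5 / 6) k / (-1024) ^ k)
      (5 / 32 * (jacobiSym x 3 : ℚ) * (41 * x - p / x)) := by
  intro h
  have h1 := h 41 (by norm_num) (by norm_num) 2 0 (by norm_num)
  have e : jacobiSym 41 41 = 0 := by norm_num
  have e2 : jacobiSym (41 : ℕ) 3 = -1 := by norm_num
  have e3 : jacobiSym 2 3 = -1 := by norm_num
  rw [e, e2, e3] at h1
  revert h1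
  decide +kernel

end Pool.Agent.Results.MP_2a5e5c_nt.Full
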